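import Mathlib

/-!
# Polygonal chains in a set and their energy
-/

set_option autoImplicit false

namespace Pool.Agent.W270.CV

open Finset Topology

variable {V : Type*} [NormedAddCommGroup V] [InnerProductSpace ℝ V]

/-- the first `n` segments of the chain `z` are in `E` -/
def IsCh (E : Set V) (n : ℕ) (z : ℕ → V) : Prop := ∀ i < n, segment ℝ (z i) (z (i + 1)) ⊆ E

/-- energy -/
def En (n : ℕ) (z : ℕ → V) : ℝ := ∑ i ∈ range n, ‖z (i + 1) - z i‖ ^ 2

/-- length -/
def Ln (n : ℕ) (z : ℕ → V) : ℝ := ∑ i ∈ range n, ‖z (i + 1) - z i‖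

/-- there is a chain of `n` segments from `x` to `y` with energy `e` -/
def Ch (E : Set V) (n : ℕ) (x y : V) (e : ℝ) : Prop :=
  ∃ z : ℕ → V, z 0 = x ∧ z n = y ∧ IsCh E n z ∧ En n z = e

theorem Ch.trans {E : Set V} {n m : ℕ} {x y w : V} {e f : ℝ} (h1 : Ch E n x y e)
    (h2 : Ch E m y w f) : Ch E (n + m) x w (e + f) := by
  obtain ⟨z, hz0, hzn, hz, hze⟩ := h1
  obtain ⟨z', hz0', hzn', hz', hze'⟩ := h2
  set zz : ℕ → V := fun i => if i < n then z i else z' (i - n) with hzz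
  have k1 : ∀ i, i ≤ n → zz i = z i := by
    intro i hi
    rcases hi.lt_or_eq with h | h
    · simp only [hzz]
      rw [if_pos h]
    · subst h
      simp only [hzz]
      rw [if_neg (lt_irrefl _), Nat.sub_self, hz0', hzn]
  have k2 : ∀ j, zz (n + j) = z' j := by
    intro j
    simp only [hzz]
    rw [if_neg (by omega), Nat.add_sub_cancel_left]
  refine ⟨zz, ?_, ?_, ?_, ?_⟩
  · rw [k1 0 (Nat.zero_le _), hz0]
  · rw [k2, hzn']
  · intro i hi
    rcases lt_or_ge i n with h | h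
    · rw [k1 i h.le, k1 (i + 1) h]
      exact hz i h
    · obtain ⟨j, rfl⟩ := Nat.exists_eq_add_of_le h
      rw [k2, add_assoc, k2]
      exact hz' j (by omega)
  · unfold En at hze hze' ⊢
    rw [Finset.sum_range_add, ← hze, ← hze']
    congr 1
    · refine sum_congr rfl (fun i hi => ?_)
      rw [mem_range] at hi
      rw [k1 i hi.le, k1 (i + 1) hi]
    · refine sum_congr rfl (fun j _ => ?_)
      rw [add_assoc, k2, k2]

theorem Ch.seg {E : Set V} {x y : V} (h : segment ℝ x y ⊆ E) (k : ℕ) (hk : 1 ≤ k) :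
    Ch E k x y (‖y - x‖ ^ 2 / k) := by
  have hk0 : (0 : ℝ) < k := by exact_mod_cast hk
  refine ⟨fun i => x + ((i : ℝ) / k) • (y - x), ?_, ?_, ?_, ?_⟩
  · simp
  · simp only
    rw [div_self hk0.ne', one_smul, add_sub_cancel]
  · intro i hi
    have hconv : Convex ℝ (segment ℝ x y) := convex_segment x y
    have hmem : ∀ j : ℕ, j ≤ k → x + ((j : ℝ) / k) • (y - x) ∈ segment ℝ x y := by
      intro j hj
      rw [segment_eq_image']
      refine ⟨(j : ℝ) / k, ⟨by positivity, ?_⟩, rfl⟩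
      rw [div_le_one hk0]
      exact_mod_cast hj
    exact (hconv.segment_subset (hmem i hi.le) (hmem (i + 1) hi)).trans h
  · unfold En
    have : ∀ i ∈ range k, ‖(x + (((i + 1 : ℕ) : ℝ) / k) • (y - x)) - (x + ((i : ℝ) / k) • (y - x))‖ ^ 2
        = ‖y - x‖ ^ 2 / k ^ 2 := by
      intro i _
      have e : (x + (((i + 1 : ℕ) : ℝ) / k) • (y - x)) - (x + ((i : ℝ) / k) • (y - x)) =
          ((1 : ℝ) / k) • (y - x) := by
        rw [add_sub_add_left_eq_sub, ← sub_smul]
        congr 1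
        push_cast
        ring
      rw [e, norm_smul, mul_pow, Real.norm_eq_abs, abs_of_pos (by positivity)]
      ring
    rw [sum_congr rfl this, sum_const, card_range, nsmul_eq_mul]
    field_simp

/-- subdivision -/
theorem Ch.sub {E : Set V} (z : ℕ → V) (k : ℕ → ℕ) (hk : ∀ i, 1 ≤ k i) :
    ∀ n : ℕ, IsCh E n z →
      Ch E (∑ i ∈ range n, k i) (z 0) (z n) (∑ i ∈ range n, ‖z (i + 1) - z i‖ ^ 2 / k i) := by
  intro n
  induction n with
  | zero =>
    intro _
    refine ⟨z, rfl, by simp, ?_, by simp [En]⟩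
    intro i hi
    simp at hi
  | succ n ih =>
    intro h
    rw [sum_range_succ, sum_range_succ]
    exact (ih (fun i hi => h i (by omega))).trans (Ch.seg (h n (by omega)) (k n) (hk n))

/-- the values `n * energy` -/
def FS (E : Set V) (x y : V) : Set ℝ :=
  {v | ∃ (n : ℕ) (z : ℕ → V), 1 ≤ n ∧ z 0 = x ∧ z n = y ∧ IsCh E n z ∧ v = n * En n z}

/-- the infimum of `n * energy` -/
noncomputable def FF (E : Set V) (x y : V) : ℝ := sInf (FS E x y)

theorem En_nonneg (n : ℕ) (z : ℕ → V) : 0 ≤ En n z := sum_nonneg (fun _ _ => by positivity)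

theorem Ln_nonneg (n : ℕ) (z : ℕ → V) : 0 ≤ Ln n z := sum_nonneg (fun _ _ => norm_nonneg _)

theorem FS_bdd (E : Set V) (x y : V) : BddBelow (FS E x y) := by
  refine ⟨0, ?_⟩
  rintro v ⟨n, z, -, -, -, -, rfl⟩
  have := En_nonneg n z
  positivity

theorem FF_le {E : Set V} {x y : V} {n : ℕ} {e : ℝ} (hn : 1 ≤ n) (h : Ch E n x y e) :
    FF E x y ≤ n * e := by
  obtain ⟨z, h0, h1, h2, rfl⟩ := h
  exact csInf_le (FS_bdd E x y) ⟨n, z, hn, h0, h1, h2, rfl⟩

theorem FF_nonneg {E : Set V} {x y : V} (hne : (FS E x y).Nonempty) : 0 ≤ FF E x y := by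
  refine le_csInf hne ?_
  rintro v ⟨n, z, -, -, -, -, rfl⟩
  have := En_nonneg n z
  positivity

theorem Ln_sq_le (n : ℕ) (z : ℕ → V) : Ln n z ^ 2 ≤ n * En n z := by
  unfold Ln En
  have := sq_sum_le_card_mul_sum_sq (s := range n) (f := fun i => ‖z (i + 1) - z i‖)
  rw [card_range] at this
  exact this

theorem dist_le_Ln (n : ℕ) (z : ℕ → V) : ‖z n - z 0‖ ≤ Ln n z := by
  unfold Ln
  rw [← Finset.sum_range_sub]
  exact norm_sum_le _ _

theorem sq_dist_le_FF {E : Set V} {x y : V} (hne : (FS E x y).Nonempty) :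
    ‖y - x‖ ^ 2 ≤ FF E x y := by
  refine le_csInf hne ?_
  rintro v ⟨n, z, -, rfl, rfl, -, rfl⟩
  exact (pow_le_pow_left₀ (norm_nonneg _) (dist_le_Ln n z) 2).trans (Ln_sq_le n z)

/-- the infimum is at most the square of the length of any chain -/
theorem FF_le_Ln_sq {E : Set V} (n : ℕ) (hn : 1 ≤ n) (z : ℕ → V) (hz : IsCh E n z) :
    FF E (z 0) (z n) ≤ Ln n z ^ 2 := by
  have hL := Ln_nonneg n z
  refine le_of_forall_pos_le_add (fun ε hε => ?_)
  obtain ⟨K, hK⟩ := exists_nat_gt (n * Ln n z / ε)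
  have hnL : 0 ≤ n * Ln n z / ε := by positivity
  have hK0 : (0 : ℝ) < K := lt_of_le_of_lt hnL hK
  set k : ℕ → ℕ := fun i => ⌊(K : ℝ) * ‖z (i + 1) - z i‖⌋₊ + 1 with hk
  have h1 := Ch.sub z k (fun i => by simp only [hk]; omega) n hz
  have hle1 : ((∑ i ∈ range n, k i : ℕ) : ℝ) ≤ K * Ln n z + n := by
    push_cast
    unfold Ln
    rw [mul_sum]
    have : (n : ℝ) = ∑ i ∈ range n, (1 : ℝ) := by simp
    rw [this, ← sum_add_distrib]
    refine sum_le_sum (fun i _ => ?_)
    simp only [hk]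
    push_cast
    have := Nat.floor_le (a := (K : ℝ) * ‖z (i + 1) - z i‖) (by positivity)
    linarith
  have hle2 : ∑ i ∈ range n, ‖z (i + 1) - z i‖ ^ 2 / k i ≤ Ln n z / K := by
    unfold Ln
    rw [sum_div]
    refine sum_le_sum (fun i _ => ?_)
    have hk1 : (K : ℝ) * ‖z (i + 1) - z i‖ ≤ k i := by
      simp only [hk]
      push_cast
      exact (Nat.lt_floor_add_one _).le
    have hk0 : (0 : ℝ) < k i := by
      simp only [hk]
      push_cast
      positivity
    rw [div_le_div_iff₀ hk0 hK0]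
    have h0 := norm_nonneg (z (i + 1) - z i)
    nlinarith
  have hs1 : 1 ≤ ∑ i ∈ range n, k i := by
    calc 1 ≤ k 0 := by simp only [hk]; omega
      _ ≤ _ := single_le_sum (f := k) (fun i _ => Nat.zero_le _) (mem_range.mpr (by omega))
  have hF := FF_le hs1 h1
  have hnn : 0 ≤ ∑ i ∈ range n, ‖z (i + 1) - z i‖ ^ 2 / (k i : ℝ) :=
    sum_nonneg (fun i _ => by positivity)
  calc FF E (z 0) (z n) ≤ _ := hF
    _ ≤ (K * Ln n z + n) * (Ln n z / K) := mul_le_mul hle1 hle2 hnn (by positivity)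
    _ = Ln n z ^ 2 + n * Ln n z / K := by field_simp
    _ ≤ Ln n z ^ 2 + ε := by
        have : n * Ln n z / K ≤ ε := by
          rw [div_le_iff₀ hK0]
          rw [div_lt_iff₀ hε] at hK
          linarith
        linarith

/-- algebra of the sums -/
theorem sum_ineq (l : ℕ → ℝ) (τ : ℝ) (N : ℕ) :
    τ * (∑ i ∈ range N, l i) ^ 2 ≤
      τ * (∑ i ∈ range N, (l i ^ 2 + 2 * ∑ j ∈ range i, l j ^ 2)) +
      (N * (∑ i ∈ range N, l i ^ 2) - (∑ i ∈ range N, l i) ^ 2) +
      τ ^ 2 * (N * ∑ i ∈ range N, l i ^ 2) := by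
  induction N with
  | zero => simp
  | succ N ih =>
    rw [sum_range_succ, sum_range_succ, sum_range_succ]
    set L := ∑ i ∈ range N, l i with hL
    set Q := ∑ i ∈ range N, l i ^ 2 with hQ
    set S := ∑ i ∈ range N, (l i ^ 2 + 2 * ∑ j ∈ range i, l j ^ 2) with hS
    have hsq : 0 ≤ (1 + τ) ^ 2 * Q - 2 * (1 + τ) * l N * L + N * l N ^ 2 := by
      have h : 0 ≤ ∑ j ∈ range N, ((1 + τ) * l j - l N) ^ 2 := sum_nonneg (fun _ _ => sq_nonneg _)
      have e : ∑ j ∈ range N, ((1 + τ) * l j - l N) ^ 2 =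
          (1 + τ) ^ 2 * Q - 2 * (1 + τ) * l N * L + N * l N ^ 2 := by
        rw [hQ, hL, mul_sum, mul_sum, ← sum_sub_distrib]
        have : (N : ℝ) * l N ^ 2 = ∑ j ∈ range N, l N ^ 2 := by simp
        rw [this, ← sum_add_distrib]
        refine sum_congr rfl (fun j _ => by ring)
      rwa [e] at h
    have hQ0 : 0 ≤ Q := sum_nonneg (fun _ _ => sq_nonneg _)
    have hτ : 0 ≤ τ ^ 2 * ((N + 1) * l N ^ 2) := by positivity
    push_cast
    nlinarith

/-- discrete convexity -/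
theorem conv_ineq (u e : ℕ → ℝ) (N : ℕ) (h0 : e 0 ≤ u 1 - u 0)
    (h : ∀ i, i + 1 < N → e (i + 1) + e i ≤ u (i + 2) - 2 * u (i + 1) + u i) :
    1 ≤ N → ∑ i ∈ range N, (e i + 2 * ∑ j ∈ range i, e j) ≤ u N - u 0 := by
  intro hN
  have hv : ∀ i, i < N → e i + 2 * ∑ j ∈ range i, e j ≤ u (i + 1) - u i := by
    intro i
    induction i with
    | zero =>
      intro _
      simpa using h0
    | succ i ih =>
      intro hi
      have h1 := ih (by omega)
      have h2 := h i hi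
      rw [sum_range_succ]
      have : u (i + 1 + 1) = u (i + 2) := rfl
      rw [this]
      linarith
  rw [← Finset.sum_range_sub]
  exact sum_le_sum (fun i hi => hv i (mem_range.mp hi))

end Pool.Agent.W270.CV
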