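import Pool.Agent.W270.CV.Vari

/-!
# Compact connected sets with clear visibility of the locally nonconvex points
-/

set_option autoImplicit false

namespace Pool.Agent.W270.CV

open Finset Topology

variable {V : Type*} [NormedAddCommGroup V] [InnerProductSpace ℝ V]

/-- points of local nonconvexity -/
def LQ (E : Set V) : Set V := {x | x ∈ E ∧ ∀ r : ℝ, 0 < r → ¬ Convex ℝ (Metric.ball x r ∩ E)}

/-- the points which see all the points of `E` in the ball of radius `r` around `q` -/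
def AA (E : Set V) (r : ℝ) (q : V) : Set V :=
  {y | y ∈ E ∧ ∀ z ∈ Metric.ball q r ∩ E, segment ℝ y z ⊆ E}

/-- property `C_n` -/
def CP (n : ℕ) (E : Set V) : Prop :=
  ∀ x : Fin n → V, (∀ i, x i ∈ LQ E) → ∃ y ∈ E, ∀ i, ∃ r : ℝ, 0 < r ∧ y ∈ AA E r (x i)

theorem AA_mono {E : Set V} {r r' : ℝ} {q q' : V} (h : dist q' q + r' ≤ r) :
    AA E r q ⊆ AA E r' q' := by
  rintro y ⟨hy, h1⟩
  refine ⟨hy, fun z hz => h1 z ⟨?_, hz.2⟩⟩
  have := hz.1
  rw [Metric.mem_ball] at this ⊢
  calc dist z q ≤ dist z q' + dist q' q := dist_triangle _ _ _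
    _ < r := by linarith

theorem convex_small {E : Set V} {x x' : V} {r r' : ℝ} (h : dist x' x + r' ≤ r)
    (hc : Convex ℝ (Metric.ball x r ∩ E)) : Convex ℝ (Metric.ball x' r' ∩ E) := by
  have e : Metric.ball x' r' ∩ E = Metric.ball x' r' ∩ (Metric.ball x r ∩ E) := by
    ext z
    constructor
    · rintro ⟨h1, h2⟩
      refine ⟨h1, ?_, h2⟩
      rw [Metric.mem_ball] at h1 ⊢
      calc dist z x ≤ dist z x' + dist x' x := dist_triangle _ _ _
        _ < r := by linarith
    · rintro ⟨h1, -, h2⟩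
      exact ⟨h1, h2⟩
  rw [e]
  exact (convex_ball _ _).inter hc

theorem LQ_compact {E : Set V} (hE : IsCompact E) : IsCompact (LQ E) := by
  refine hE.of_isClosed_subset ?_ (fun x hx => hx.1)
  rw [← isOpen_compl_iff, Metric.isOpen_iff]
  intro x hx
  by_cases hxE : x ∈ E
  · have : ∃ r : ℝ, 0 < r ∧ Convex ℝ (Metric.ball x r ∩ E) := by
      by_contra hcon
      push Not at hcon
      exact hx ⟨hxE, hcon⟩
    obtain ⟨r, hr, hc⟩ := this
    refine ⟨r, hr, fun x' hx' hmem => ?_⟩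
    rw [Metric.mem_ball] at hx'
    exact hmem.2 (r - dist x' x) (by linarith) (convex_small (by linarith) hc)
  · have h1 : Eᶜ ∈ 𝓝 x := hE.isClosed.isOpen_compl.mem_nhds hxE
    obtain ⟨r, hr, h2⟩ := Metric.mem_nhds_iff.mp h1
    exact ⟨r, hr, fun x' hx' hmem => h2 hx' hmem.1⟩

/-- one radius for all tuples -/
theorem uniform_radius {E : Set V} (hE : IsCompact E) {n : ℕ} (h : CP n E) :
    ∃ r₀ : ℝ, 0 < r₀ ∧ ∀ x : Fin n → V, (∀ i, x i ∈ LQ E) → ∃ y ∈ E, ∀ i, y ∈ AA E r₀ (x i) := by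
  have hK : IsCompact (Set.pi Set.univ (fun _ : Fin n => LQ E)) :=
    isCompact_univ_pi (fun _ => LQ_compact hE)
  have key : ∃ r₀ : ℝ, 0 < r₀ ∧ ∀ x ∈ Set.pi Set.univ (fun _ : Fin n => LQ E),
      ∃ y ∈ E, ∀ i, y ∈ AA E r₀ (x i) := by
    refine hK.induction_on (p := fun S => ∃ r₀ : ℝ, 0 < r₀ ∧ ∀ x ∈ S,
      ∃ y ∈ E, ∀ i, y ∈ AA E r₀ (x i)) ?_ ?_ ?_ ?_
    · exact ⟨1, one_pos, fun x hx => absurd hx (Set.notMem_empty x)⟩
    · rintro s t hst ⟨r, hr, h1⟩
      exact ⟨r, hr, fun x hx => h1 x (hst hx)⟩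
    · rintro s t ⟨r, hr, h1⟩ ⟨r', hr', h2⟩
      refine ⟨min r r', lt_min hr hr', fun x hx => ?_⟩
      rcases hx with hx | hx
      · obtain ⟨y, hy, h3⟩ := h1 x hx
        exact ⟨y, hy, fun i => AA_mono (by rw [dist_self, zero_add]; exact min_le_left _ _) (h3 i)⟩
      · obtain ⟨y, hy, h3⟩ := h2 x hx
        exact ⟨y, hy, fun i => AA_mono (by rw [dist_self, zero_add]; exact min_le_right _ _) (h3 i)⟩
    · intro x hx
      obtain ⟨y, hy, h1⟩ := h x (fun i => hx i (Set.mem_univ i))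
      choose r hr h2 using h1
      obtain ⟨ρ, hρ, hρr⟩ : ∃ ρ : ℝ, 0 < ρ ∧ ∀ i, ρ ≤ r i := by
        rcases isEmpty_or_nonempty (Fin n) with hemp | hnon
        · exact ⟨1, one_pos, fun i => (hemp.false i).elim⟩
        · obtain ⟨i0, -, hi0⟩ := Finset.exists_min_image (univ : Finset (Fin n)) r
            univ_nonempty
          exact ⟨r i0, hr i0, fun i => hi0 i (mem_univ i)⟩
      refine ⟨Metric.ball x (ρ / 2), mem_nhdsWithin_of_mem_nhds
        (Metric.ball_mem_nhds x (by positivity)), ρ / 2, by positivity, fun x' hx' => ?_⟩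
      refine ⟨y, hy, fun i => AA_mono ?_ (h2 i)⟩
      rw [Metric.mem_ball] at hx'
      have := dist_le_pi_dist x' x i
      have := hρr i
      linarith
  obtain ⟨r, hr, h1⟩ := key
  exact ⟨r, hr, fun x hx => h1 x (fun i _ => hx i)⟩

/-- points towards which small moves near `q` stay in `E` -/
def GG (E : Set V) (q : V) (r D : ℝ) : Set V :=
  {p | ‖p - q‖ ≤ D ∧ ∀ z ∈ E, ∀ s : ℝ, 0 ≤ s → s ≤ 1 → ‖z - q‖ < r →
    (1 - s) * ‖z - q‖ + s * D < r → (1 - s) • z + s • p ∈ E}

theorem GG_closed {E : Set V} (hE : IsClosed E) (q : V) (r D : ℝ) : IsClosed (GG E q r D) := by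
  have e : GG E q r D = {p | ‖p - q‖ ≤ D} ∩ ⋂ z : V, ⋂ _ : z ∈ E, ⋂ s : ℝ, ⋂ _ : 0 ≤ s,
      ⋂ _ : s ≤ 1, ⋂ _ : ‖z - q‖ < r, ⋂ _ : (1 - s) * ‖z - q‖ + s * D < r,
        {p : V | (1 - s) • z + s • p ∈ E} := by
    ext p
    simp only [GG, Set.mem_inter_iff, Set.mem_ofPred_eq, Set.mem_iInter]
  rw [e]
  refine IsClosed.inter (isClosed_le (by fun_prop) continuous_const) ?_
  refine isClosed_iInter fun z => isClosed_iInter fun _ => isClosed_iInter fun s =>
    isClosed_iInter fun _ => isClosed_iInter fun _ => isClosed_iInter fun _ =>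
    isClosed_iInter fun _ => hE.preimage (by fun_prop)

theorem GG_convex (E : Set V) (q : V) (r D : ℝ) : Convex ℝ (GG E q r D) := by
  intro p1 h1 p2 h2 a b ha hb hab
  obtain ⟨n1, k1⟩ := h1
  obtain ⟨n2, k2⟩ := h2
  refine ⟨?_, ?_⟩
  · have e : a • p1 + b • p2 - q = a • (p1 - q) + b • (p2 - q) := by
      have : q = a • q + b • q := by rw [← add_smul, hab, one_smul]
      nth_rewrite 1 [this]
      rw [smul_sub, smul_sub]
      abel
    rw [e]
    calc ‖a • (p1 - q) + b • (p2 - q)‖ ≤ ‖a • (p1 - q)‖ + ‖b • (p2 - q)‖ := norm_add_le _ _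
      _ = a * ‖p1 - q‖ + b * ‖p2 - q‖ := by
          rw [norm_smul, norm_smul, Real.norm_eq_abs, Real.norm_eq_abs, abs_of_nonneg ha,
            abs_of_nonneg hb]
      _ ≤ a * D + b * D := by gcongr
      _ = D := by rw [← add_mul, hab, one_mul]
  · intro z hz s hs0 hs1 hzr hcond
    have hsb : s * b ≤ 1 := by nlinarith
    rcases hsb.lt_or_eq with hlt | heq
    · have hden : 0 < 1 - s * b := by linarith
      set t : ℝ := s * a / (1 - s * b) with ht
      have ht0 : 0 ≤ t := by positivity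
      have hts : t ≤ s := by
        rw [ht, div_le_iff₀ hden]
        have : b = 1 - a := by linarith
        rw [this]
        have : 0 ≤ s * (1 - a) * (1 - s) := by
          have : 0 ≤ 1 - a := by linarith
          have h3 : 0 ≤ 1 - s := by linarith
          positivity
        nlinarith
      have ht1 : t ≤ 1 := hts.trans hs1
      have hcond1 : (1 - t) * ‖z - q‖ + t * D < r := by
        rcases le_total D ‖z - q‖ with hD | hD
        · nlinarith
        · nlinarith
      set z1 : V := (1 - t) • z + t • p1 with hz1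
      have hz1E : z1 ∈ E := k1 z hz t ht0 ht1 hzr hcond1
      have hz1n : ‖z1 - q‖ ≤ (1 - t) * ‖z - q‖ + t * D := by
        have e : z1 - q = (1 - t) • (z - q) + t • (p1 - q) := by
          rw [hz1, smul_sub, smul_sub, sub_smul, sub_smul, one_smul, one_smul]
          abel
        rw [e]
        calc ‖(1 - t) • (z - q) + t • (p1 - q)‖ ≤ ‖(1 - t) • (z - q)‖ + ‖t • (p1 - q)‖ :=
              norm_add_le _ _
          _ = (1 - t) * ‖z - q‖ + t * ‖p1 - q‖ := by
              rw [norm_smul, norm_smul, Real.norm_eq_abs, Real.norm_eq_abs, abs_of_nonneg ht0,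
                abs_of_nonneg (by linarith : 0 ≤ 1 - t)]
          _ ≤ _ := by gcongr
      have e1 : (1 - s * b) * t = s * a := by
        rw [ht]; field_simp
      have e2 : (1 - s * b) * (1 - t) = 1 - s := by
        have : b = 1 - a := by linarith
        rw [mul_sub, e1, this]
        ring
      have hcond2 : (1 - s * b) * ‖z1 - q‖ + s * b * D < r := by
        have : (1 - s * b) * ‖z1 - q‖ ≤ (1 - s * b) * ((1 - t) * ‖z - q‖ + t * D) :=
          mul_le_mul_of_nonneg_left hz1n hden.le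
        have e3 : (1 - s * b) * ((1 - t) * ‖z - q‖ + t * D) + s * b * D =
            (1 - s) * ‖z - q‖ + s * D := by
          have e4 : (1 - s * b) * ((1 - t) * ‖z - q‖ + t * D) =
              ((1 - s * b) * (1 - t)) * ‖z - q‖ + ((1 - s * b) * t) * D := by ring
          rw [e4, e1, e2]
          have : a = 1 - b := by linarith
          rw [this]
          ring
        linarith
      have hfin := k2 z1 hz1E (s * b) (by positivity) hsb (by linarith) hcond2
      have e5 : (1 - s * b) • z1 + (s * b) • p2 = (1 - s) • z + s • (a • p1 + b • p2) := by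
        rw [hz1, smul_add, smul_smul, smul_smul, e1, e2, smul_add, smul_smul, smul_smul, add_assoc]
      rw [← e5]
      exact hfin
    · have hs : s = 1 := by nlinarith
      have hb1 : b = 1 := by rw [hs] at heq; linarith
      have ha0 : a = 0 := by linarith
      have := k2 z hz s hs0 hs1 hzr hcond
      rw [ha0, hb1, zero_smul, zero_add, one_smul]
      exact this

theorem AA_sub_GG {E : Set V} {q : V} {r D : ℝ} (hD : ∀ y ∈ E, ‖y - q‖ ≤ D) :
    AA E r q ⊆ GG E q r D := by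
  rintro y ⟨hy, h⟩
  refine ⟨hD y hy, fun z hz s hs0 hs1 hzr _ => ?_⟩
  have h1 := h z ⟨by rw [Metric.mem_ball, dist_eq_norm]; exact hzr, hz⟩
  rw [seg_iff] at h1
  have h2 := h1 (1 - s) ⟨by linarith, by linarith⟩
  have e : (1 - (1 - s)) • y + (1 - s) • z = (1 - s) • z + s • y := by
    rw [sub_sub_cancel, add_comm]
  rw [e] at h2
  exact h2

/-- the local property at a point of local nonconvexity -/
theorem loc_at {E : Set V} (hE : IsCompact E) {q p : V} {r : ℝ} (hr : 0 < r)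
    (hp : p ∈ closure (convexHull ℝ (AA E r q))) :
    ∃ ρ s₀ : ℝ, 0 < ρ ∧ 0 < s₀ ∧ s₀ ≤ 1 / 2 ∧
      ∀ z ∈ Metric.ball q ρ ∩ E, ∀ s : ℝ, 0 ≤ s → s ≤ s₀ → (1 - s) • z + s • p ∈ E := by
  obtain ⟨D, hD⟩ : ∃ D : ℝ, ∀ y ∈ E, ‖y - q‖ ≤ D := by
    obtain ⟨C, hC⟩ := hE.isBounded.exists_norm_le
    refine ⟨C + ‖q‖, fun y hy => ?_⟩
    calc ‖y - q‖ ≤ ‖y‖ + ‖q‖ := norm_sub_le _ _
      _ ≤ C + ‖q‖ := by linarith [hC y hy]
  have hpG : p ∈ GG E q r D := by
    have h1 : closure (convexHull ℝ (AA E r q)) ⊆ GG E q r D :=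
      closure_minimal (convexHull_min (AA_sub_GG hD) (GG_convex E q r D))
        (GG_closed hE.isClosed q r D)
    exact h1 hp
  obtain ⟨hn, hG⟩ := hpG
  have hD0 : 0 ≤ D := (norm_nonneg _).trans hn
  refine ⟨r / 2, min (1 / 2) (r / (2 * (D + 1))), by positivity, by positivity, min_le_left _ _,
    ?_⟩
  rintro z ⟨hz1, hz2⟩ s hs0 hs1
  rw [Metric.mem_ball, dist_eq_norm] at hz1
  have hs2 : s ≤ 1 / 2 := hs1.trans (min_le_left _ _)
  have hs3 : s ≤ r / (2 * (D + 1)) := hs1.trans (min_le_right _ _)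
  rw [le_div_iff₀ (by positivity)] at hs3
  have hsD : s * D < r / 2 ∨ s = 0 := by
    rcases hs0.lt_or_eq with h | h
    · left; nlinarith
    · right; exact h.symm
  refine hG z hz2 s hs0 (by linarith) (by linarith) ?_
  rcases hsD with h | h
  · have : (1 - s) * ‖z - q‖ ≤ ‖z - q‖ := by nlinarith [norm_nonneg (z - q)]
    linarith
  · rw [h]; linarith

/-- the uniform local property -/
theorem loc_uniform {E : Set V} (hE : IsCompact E) {p : V} {r : ℝ} (hr : 0 < r)
    (hp : ∀ q ∈ LQ E, p ∈ closure (convexHull ℝ (AA E r q))) :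
    ∃ δ s₀ : ℝ, 0 < δ ∧ 0 < s₀ ∧ s₀ ≤ 1 / 2 ∧ LocP E p δ s₀ := by
  have key : ∃ δ s₀ : ℝ, 0 < δ ∧ 0 < s₀ ∧ s₀ ≤ 1 / 2 ∧
      ∀ w ∈ E, Convex ℝ (Metric.ball w δ ∩ E) ∨
        ∀ z ∈ Metric.ball w δ ∩ E, ∀ s : ℝ, 0 ≤ s → s ≤ s₀ → (1 - s) • z + s • p ∈ E := by
    refine hE.induction_on (p := fun S => ∃ δ s₀ : ℝ, 0 < δ ∧ 0 < s₀ ∧ s₀ ≤ 1 / 2 ∧
      ∀ w ∈ S, Convex ℝ (Metric.ball w δ ∩ E) ∨
        ∀ z ∈ Metric.ball w δ ∩ E, ∀ s : ℝ, 0 ≤ s → s ≤ s₀ → (1 - s) • z + s • p ∈ E)
      ?_ ?_ ?_ ?_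
    · exact ⟨1, 1 / 2, one_pos, by norm_num, le_rfl, fun x hx => absurd hx (Set.notMem_empty x)⟩
    · rintro s t hst ⟨δ, s₀, h1, h2, h3, h4⟩
      exact ⟨δ, s₀, h1, h2, h3, fun x hx => h4 x (hst hx)⟩
    · rintro s t ⟨δ, s₀, h1, h2, h3, h4⟩ ⟨δ', s₀', h1', h2', h3', h4'⟩
      refine ⟨min δ δ', min s₀ s₀', lt_min h1 h1', lt_min h2 h2', (min_le_left _ _).trans h3,
        fun x hx => ?_⟩
      have hb : Metric.ball x (min δ δ') ⊆ Metric.ball x δ :=
        Metric.ball_subset_ball (min_le_left _ _)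
      have hb' : Metric.ball x (min δ δ') ⊆ Metric.ball x δ' :=
        Metric.ball_subset_ball (min_le_right _ _)
      rcases hx with hx | hx
      · rcases h4 x hx with h | h
        · left
          exact convex_small (by rw [dist_self, zero_add]; exact min_le_left _ _) h
        · right
          exact fun z hz s hs hs' => h z ⟨hb hz.1, hz.2⟩ s hs (hs'.trans (min_le_left _ _))
      · rcases h4' x hx with h | h
        · left
          exact convex_small (by rw [dist_self, zero_add]; exact min_le_right _ _) h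
        · right
          exact fun z hz s hs hs' => h z ⟨hb' hz.1, hz.2⟩ s hs (hs'.trans (min_le_right _ _))
    · intro x hx
      by_cases hxQ : x ∈ LQ E
      · obtain ⟨ρ, s₀, hρ, hs, hs', h⟩ := loc_at hE hr (hp x hxQ)
        refine ⟨Metric.ball x (ρ / 2), mem_nhdsWithin_of_mem_nhds
          (Metric.ball_mem_nhds x (by positivity)), ρ / 2, s₀, by positivity, hs, hs',
          fun w hw => Or.inr ?_⟩
        intro z hz
        refine h z ⟨?_, hz.2⟩
        have h1 := hz.1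
        rw [Metric.mem_ball] at hw h1 ⊢
        calc dist z x ≤ dist z w + dist w x := dist_triangle _ _ _
          _ < ρ := by linarith
      · have : ∃ ρ : ℝ, 0 < ρ ∧ Convex ℝ (Metric.ball x ρ ∩ E) := by
          by_contra hcon
          push Not at hcon
          exact hxQ ⟨hx, hcon⟩
        obtain ⟨ρ, hρ, hc⟩ := this
        refine ⟨Metric.ball x (ρ / 2), mem_nhdsWithin_of_mem_nhds
          (Metric.ball_mem_nhds x (by positivity)), ρ / 2, 1 / 2, by positivity, by norm_num,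
          le_rfl, fun w hw => Or.inl ?_⟩
        rw [Metric.mem_ball] at hw
        exact convex_small (by linarith) hc
  obtain ⟨δ, s₀, h1, h2, h3, h4⟩ := key
  exact ⟨δ, s₀, h1, h2, h3, h4⟩

/-- any two points are joined by a chain -/
theorem connected_chain {E : Set V} (hconn : IsPreconnected E)
    (h1 : ∀ q ∈ LQ E, ∃ (y : V) (r : ℝ), 0 < r ∧ y ∈ AA E r q) {x y : V} (hx : x ∈ E)
    (hy : y ∈ E) : ∃ (n : ℕ) (e : ℝ), 1 ≤ n ∧ Ch E n x y e := by
  have hloc : ∀ w ∈ E, ∃ r : ℝ, 0 < r ∧ ∀ a ∈ Metric.ball w r ∩ E, ∀ b ∈ Metric.ball w r ∩ E,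
      ∃ (n : ℕ) (e : ℝ), 1 ≤ n ∧ Ch E n a b e := by
    intro w hw
    by_cases hwQ : w ∈ LQ E
    · obtain ⟨y, r, hr, -, h⟩ := h1 w hwQ
      refine ⟨r, hr, fun a ha b hb => ⟨1 + 1, _, by norm_num,
        (Ch.seg (x := a) (y := y) (by rw [segment_symm]; exact h a ha) 1 le_rfl).trans
          (Ch.seg (h b hb) 1 le_rfl)⟩⟩
    · have : ∃ ρ : ℝ, 0 < ρ ∧ Convex ℝ (Metric.ball w ρ ∩ E) := by
        by_contra hcon
        push Not at hcon
        exact hwQ ⟨hw, hcon⟩
      obtain ⟨r, hr, hc⟩ := this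
      exact ⟨r, hr, fun a ha b hb => ⟨1, _, le_rfl,
        Ch.seg ((hc.segment_subset ha hb).trans Set.inter_subset_right) 1 le_rfl⟩⟩
  refine hconn.induction₂' (fun a b => ∃ (n : ℕ) (e : ℝ), 1 ≤ n ∧ Ch E n a b e) ?_ ?_ hx hy
  · intro w hw
    obtain ⟨r, hr, h⟩ := hloc w hw
    have hmem : Metric.ball w r ∩ E ∈ 𝓝[E] w :=
      Filter.inter_mem (mem_nhdsWithin_of_mem_nhds (Metric.ball_mem_nhds w hr))
        self_mem_nhdsWithin
    filter_upwards [hmem] with b hb
    have hww : w ∈ Metric.ball w r ∩ E := ⟨Metric.mem_ball_self hr, hw⟩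
    exact ⟨h w hww b hb, h b hb w hww⟩
  · rintro a b c _ _ _ ⟨n, e, hn, h⟩ ⟨m, f, hm, h'⟩
    exact ⟨n + m, e + f, by omega, h.trans h'⟩

theorem star_main [FiniteDimensional ℝ V] {E : Set V} (hE : IsCompact E) (hconn : IsConnected E)
    (hC : CP (Module.finrank ℝ V + 1) E) : ∃ p ∈ E, ∀ y ∈ E, segment ℝ p y ⊆ E := by
  classical
  obtain ⟨r, hr, hU⟩ := uniform_radius hE hC
  obtain ⟨p, hpE, hpQ⟩ : ∃ p : V, p ∈ closure (convexHull ℝ E) ∧
      ∀ q ∈ LQ E, p ∈ closure (convexHull ℝ (AA E r q)) := by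
    rcases (LQ E).eq_empty_or_nonempty with hemp | ⟨q0, hq0⟩
    · obtain ⟨p, hp⟩ := hconn.nonempty
      refine ⟨p, subset_closure (subset_convexHull ℝ E hp), fun q hq => ?_⟩
      rw [hemp] at hq
      exact absurd hq (Set.notMem_empty q)
    · have hAE : ∀ q, AA E r q ⊆ E := fun q y hy => hy.1
      have hcl : ∀ q, closure (convexHull ℝ (AA E r q)) ⊆ closure (convexHull ℝ E) :=
        fun q => closure_mono (convexHull_mono (hAE q))
      have hbd : Bornology.IsBounded (convexHull ℝ E) := isBounded_convexHull.mpr hE.isBounded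
      have hcomp : IsCompact (closure (convexHull ℝ E)) := by
        have : ProperSpace V := FiniteDimensional.proper ℝ V
        exact hbd.isCompact_closure
      have hH := Convex.helly_theorem_compact' (𝕜 := ℝ)
        (F := fun q : LQ E => closure (convexHull ℝ (AA E r (q : V))))
        (fun q => (convex_convexHull ℝ _).closure)
        (fun q => hcomp.of_isClosed_subset isClosed_closure (hcl q)) (by
          intro I hI
          rcases I.eq_empty_or_nonempty with he | hne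
          · subst he
            exact ⟨q0, by simp⟩
          · let f := I.equivFin
            obtain ⟨y, hy, hyA⟩ := hU (fun i => if h : (i : ℕ) < #I then
              ((f.symm ⟨i, h⟩ : LQ E) : V) else q0) (fun i => by
                split_ifs with h
                · exact (f.symm ⟨i, h⟩ : LQ E).2
                · exact hq0)
            refine ⟨y, ?_⟩
            rw [Set.mem_iInter₂]
            intro q hq
            have h1 := hyA ⟨(f ⟨q, hq⟩ : ℕ), lt_of_lt_of_le (f ⟨q, hq⟩).2 hI⟩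
            simp only at h1
            rw [dif_pos (f ⟨q, hq⟩).2] at h1
            have h2 : f.symm ⟨(f ⟨q, hq⟩ : ℕ), (f ⟨q, hq⟩).2⟩ = ⟨q, hq⟩ := by simp
            rw [h2] at h1
            exact subset_closure (subset_convexHull ℝ _ h1))
      obtain ⟨p, hp⟩ := hH
      rw [Set.mem_iInter] at hp
      exact ⟨p, hcl q0 (hp ⟨q0, hq0⟩), fun q hq => hp ⟨q, hq⟩⟩
  obtain ⟨δ, s₀, hδ, hs0, hs₀, hloc⟩ := loc_uniform hE hr hpQ
  -- chains
  have hch : ∀ x ∈ E, ∀ y ∈ E, (FS E x y).Nonempty := by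
    intro x hx y hy
    obtain ⟨n, e, hn, z, h0, h1, h2, rfl⟩ := connected_chain hconn.isPreconnected (fun q hq => by
      obtain ⟨y, hy, h⟩ := hU (fun _ => q) (fun _ => hq)
      exact ⟨y, r, hr, h 0⟩) hx hy
    exact ⟨n * En n z, n, z, hn, h0, h1, h2, rfl⟩
  -- the nearest point
  obtain ⟨x, hx, hxmin⟩ := hE.exists_isMinOn hconn.nonempty
    (f := fun w : V => ‖w - p‖) (by fun_prop)
  have hxn : ∀ w ∈ E, ‖x - p‖ ≤ ‖w - p‖ := fun w hw => hxmin hw
  have hmain : ∀ y ∈ E, ‖x - p‖ ^ 2 + FF E x y ≤ ‖y - p‖ ^ 2 := fun y hy =>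
    main_ineq hE hδ hs0 hs₀ hloc (hch x hx y hy) hxn
  have hxp : x = p := by
    set H : Set V := {y | 0 ≤ inner ℝ (x - p) (y - x)} with hH
    have hHc : Convex ℝ H := by
      intro a ha b hb s t hs ht hst
      simp only [hH, Set.mem_ofPred_eq] at ha hb ⊢
      have e : s • a + t • b - x = s • (a - x) + t • (b - x) := by
        have : x = s • x + t • x := by rw [← add_smul, hst, one_smul]
        nth_rewrite 1 [this]
        rw [smul_sub, smul_sub]
        abel
      rw [e, inner_add_right, inner_smul_right, inner_smul_right]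
      positivity
    have hHcl : IsClosed H := isClosed_le continuous_const (by fun_prop)
    have hEH : E ⊆ H := by
      intro y hy
      simp only [hH, Set.mem_ofPred_eq]
      have h1 := hmain y hy
      have h2 := sq_dist_le_FF (hch x hx y hy)
      have e : y - p = (x - p) + (y - x) := by abel
      rw [e, norm_add_sq_real] at h1
      linarith
    have hpH : p ∈ H := closure_minimal (convexHull_min hEH hHc) hHcl hpE
    simp only [hH, Set.mem_ofPred_eq] at hpH
    have e : p - x = -(x - p) := by abel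
    rw [e, inner_neg_right, real_inner_self_eq_norm_sq] at hpH
    have h3 : ‖x - p‖ ^ 2 = 0 := le_antisymm (by linarith) (sq_nonneg _)
    exact sub_eq_zero.mp (norm_eq_zero.mp (pow_eq_zero_iff (by norm_num) |>.mp h3))
  subst hxp
  refine ⟨x, hx, fun y hy => seg_of_FF hE.isClosed (hch x hx y hy) ?_⟩
  have := hmain y hy
  rw [sub_self, norm_zero] at this
  linarith

end Pool.Agent.W270.CV
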