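import Pool.Agent.W270.CV.Chain

/-!
# Energy minimising chains
-/

set_option autoImplicit false

namespace Pool.Agent.W270.CV

open Finset Topology

variable {V : Type*} [NormedAddCommGroup V] [InnerProductSpace ℝ V]

theorem seg_iff (E : Set V) (x y : V) :
    segment ℝ x y ⊆ E ↔ ∀ t : ℝ, t ∈ Set.Icc (0 : ℝ) 1 → (1 - t) • x + t • y ∈ E := by
  rw [segment_eq_image]
  constructor
  · intro h t ht
    exact h ⟨t, ht, rfl⟩
  · rintro h _ ⟨t, ht, rfl⟩
    exact h t ht

theorem chain_mem {E : Set V} {N : ℕ} {z : ℕ → V} (hN : 1 ≤ N) (hz : IsCh E N z) (i : ℕ)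
    (hi : i ≤ N) : z i ∈ E := by
  rcases hi.lt_or_eq with h | h
  · exact hz i h (left_mem_segment ℝ _ _)
  · subst h
    obtain ⟨j, rfl⟩ : ∃ j, i = j + 1 := ⟨i - 1, by omega⟩
    exact hz j (by omega) (right_mem_segment ℝ _ _)

/-- there is a chain of least energy -/
theorem exists_minCh {E : Set V} (hE : IsCompact E) (N : ℕ) (hN : 1 ≤ N) (x y : V)
    (hne : ∃ z : ℕ → V, z 0 = x ∧ z N = y ∧ IsCh E N z) :
    ∃ z : ℕ → V, z 0 = x ∧ z N = y ∧ IsCh E N z ∧
      ∀ z' : ℕ → V, z' 0 = x → z' N = y → IsCh E N z' → En N z ≤ En N z' := by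
  set K : Set (ℕ → V) := Set.pi Set.univ (fun _ => E) with hK
  have hKc : IsCompact K := isCompact_univ_pi (fun _ => hE)
  set C : Set (ℕ → V) := {z | z 0 = x ∧ z N = y ∧ IsCh E N z} with hC
  have hcl : IsClosed C := by
    have e : C = {z | z 0 = x} ∩ ({z | z N = y} ∩ ⋂ i : ℕ, ⋂ _ : i < N,
        ⋂ t : ℝ, ⋂ _ : t ∈ Set.Icc (0 : ℝ) 1, {z : ℕ → V | (1 - t) • z i + t • z (i + 1) ∈ E}) := by
      ext z
      simp only [hC, Set.mem_inter_iff, Set.mem_ofPred_eq, Set.mem_iInter, IsCh, seg_iff]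
    rw [e]
    refine IsClosed.inter (isClosed_eq (continuous_apply 0) continuous_const) (IsClosed.inter
      (isClosed_eq (continuous_apply N) continuous_const) ?_)
    refine isClosed_iInter (fun i => isClosed_iInter (fun _ => isClosed_iInter (fun t =>
      isClosed_iInter (fun _ => ?_))))
    refine hE.isClosed.preimage ?_
    exact ((continuous_apply i).const_smul _).add ((continuous_apply (i + 1)).const_smul _)
  have hcut : ∀ z : ℕ → V, z ∈ C → (fun i => z (min i N)) ∈ K ∩ C ∧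
      En N (fun i => z (min i N)) = En N z := by
    rintro z ⟨h0, h1, h2⟩
    refine ⟨⟨?_, ?_, ?_, ?_⟩, ?_⟩
    · rw [hK, Set.mem_univ_pi]
      intro i
      exact chain_mem hN h2 _ (min_le_right _ _)
    · simp only
      rw [Nat.min_eq_left (Nat.zero_le _), h0]
    · simp only
      rw [min_self, h1]
    · intro i hi
      simp only
      rw [min_eq_left hi.le, min_eq_left (by omega : i + 1 ≤ N)]
      exact h2 i hi
    · unfold En
      refine sum_congr rfl (fun i hi => ?_)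
      rw [mem_range] at hi
      simp only
      rw [min_eq_left hi.le, min_eq_left (by omega : i + 1 ≤ N)]
  obtain ⟨z0, hz0⟩ := hne
  have hnonempty : (K ∩ C).Nonempty := ⟨_, (hcut z0 hz0).1⟩
  have hcont : Continuous (fun z : ℕ → V => En N z) := by
    unfold En
    refine continuous_finsetSum _ (fun i _ => ?_)
    exact (((continuous_apply (i + 1)).sub (continuous_apply i)).norm).pow 2
  obtain ⟨z, hz, hmin⟩ := (hKc.inter_right hcl).exists_isMinOn hnonempty hcont.continuousOn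
  refine ⟨z, hz.2.1, hz.2.2.1, hz.2.2.2, fun z' h0 h1 h2 => ?_⟩
  obtain ⟨k1, k2⟩ := hcut z' ⟨h0, h1, h2⟩
  rw [← k2]
  exact hmin k1

/-- moving one vertex does not decrease the energy -/
theorem min_vertex {E : Set V} {N : ℕ} {z : ℕ → V}
    (hz : IsCh E N z)
    (hmin : ∀ z' : ℕ → V, z' 0 = z 0 → z' N = z N → IsCh E N z' → En N z ≤ En N z')
    (i : ℕ) (hi : i + 1 < N) (w : V) (h1 : segment ℝ (z i) w ⊆ E)
    (h2 : segment ℝ w (z (i + 2)) ⊆ E) :
    ‖z (i + 1) - z i‖ ^ 2 + ‖z (i + 2) - z (i + 1)‖ ^ 2 ≤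
      ‖w - z i‖ ^ 2 + ‖z (i + 2) - w‖ ^ 2 := by
  classical
  set z' : ℕ → V := Function.update z (i + 1) w with hz'
  have k1 : z' (i + 1) = w := Function.update_self _ _ _
  have k2 : ∀ j, j ≠ i + 1 → z' j = z j := fun j hj => Function.update_of_ne hj _ _
  have hch : IsCh E N z' := by
    intro j hj
    by_cases hji : j = i
    · subst hji
      rw [k1, k2 j (by omega)]
      exact h1
    · by_cases hji1 : j = i + 1
      · subst hji1
        rw [k1, k2 (i + 1 + 1) (by omega)]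
        exact h2
      · rw [k2 j hji1, k2 (j + 1) (by omega)]
        exact hz j hj
  have hE := hmin z' (k2 0 (by omega)) (k2 N (by omega)) hch
  have hdiff : En N z' - En N z = (‖w - z i‖ ^ 2 - ‖z (i + 1) - z i‖ ^ 2) +
      (‖z (i + 2) - w‖ ^ 2 - ‖z (i + 2) - z (i + 1)‖ ^ 2) := by
    unfold En
    rw [← sum_sub_distrib]
    have hsub : ({i, i + 1} : Finset ℕ) ⊆ range N := by
      intro j hj
      rw [mem_insert, mem_singleton] at hj
      rw [mem_range]
      omega
    rw [← sum_subset hsub (fun j _ hj => ?_)]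
    · rw [sum_pair (by omega), k1, k2 i (by omega), k2 (i + 1 + 1) (by omega)]
    · rw [mem_insert, mem_singleton, not_or] at hj
      rw [k2 j hj.2, k2 (j + 1) (by omega), sub_self]
  linarith

theorem nonneg_of_small (A B s₀ : ℝ) (hs : 0 < s₀)
    (h : ∀ s : ℝ, 0 < s → s ≤ s₀ → 0 ≤ s * A + s ^ 2 * B) : 0 ≤ A := by
  by_contra hA
  push Not at hA
  have hB : 0 < 2 * (|B| + 1) := by positivity
  have hpos : 0 < -A / (2 * (|B| + 1)) := div_pos (by linarith) hB
  set s := min s₀ (-A / (2 * (|B| + 1))) with hsd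
  have hs0 : 0 < s := lt_min hs hpos
  have h1 := h s hs0 (min_le_left _ _)
  have h2 : s ≤ -A / (2 * (|B| + 1)) := min_le_right _ _
  rw [le_div_iff₀ hB] at h2
  have h3 : s * B ≤ s * |B| := mul_le_mul_of_nonneg_left (le_abs_self B) hs0.le
  have h4 : A + s * B < 0 := by nlinarith
  nlinarith

/-- local property of `E` with respect to the point `p` -/
def LocP (E : Set V) (p : V) (δ s₀ : ℝ) : Prop :=
  ∀ w ∈ E, Convex ℝ (Metric.ball w δ ∩ E) ∨
    ∀ z ∈ Metric.ball w δ ∩ E, ∀ s : ℝ, 0 ≤ s → s ≤ s₀ → (1 - s) • z + s • p ∈ E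

theorem push_seg {E : Set V} {p w a : V} {δ s₀ : ℝ} (hs₀ : s₀ ≤ 1 / 2)
    (hb : ∀ z ∈ Metric.ball w δ ∩ E, ∀ s : ℝ, 0 ≤ s → s ≤ s₀ → (1 - s) • z + s • p ∈ E)
    (hw : 0 < δ) (ha : a ∈ Metric.ball w δ) (haw : segment ℝ a w ⊆ E) (s : ℝ) (h0 : 0 ≤ s)
    (h1 : s ≤ s₀) : segment ℝ a ((1 - s) • w + s • p) ⊆ E := by
  rw [seg_iff]
  intro t ht
  have hts : t * s ≤ s₀ := by nlinarith [ht.1, ht.2]
  have hts0 : 0 ≤ t * s := mul_nonneg ht.1 h0
  have hden : 0 < 1 - t * s := by linarith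
  set c : V := ((1 - t) / (1 - t * s)) • a + (t * (1 - s) / (1 - t * s)) • w with hc
  have hcs : c ∈ segment ℝ a w := by
    refine ⟨(1 - t) / (1 - t * s), t * (1 - s) / (1 - t * s), ?_, ?_, ?_, rfl⟩
    · exact div_nonneg (by linarith [ht.2]) hden.le
    · exact div_nonneg (mul_nonneg ht.1 (by linarith)) hden.le
    · rw [← add_div, div_eq_one_iff_eq hden.ne']
      ring
  have hcb : c ∈ Metric.ball w δ :=
    (convex_ball w δ).segment_subset ha (Metric.mem_ball_self hw) hcs
  have hmem := hb c ⟨hcb, haw hcs⟩ (t * s) hts0 hts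
  have e : (1 - t * s) • c + (t * s) • p = (1 - t) • a + t • ((1 - s) • w + s • p) := by
    rw [hc, smul_add, smul_smul, smul_smul, mul_div_cancel₀ _ hden.ne',
      mul_div_cancel₀ _ hden.ne', smul_add, smul_smul, smul_smul, add_assoc]
  rw [← e]
  exact hmem

/-- the first order condition at a vertex -/
theorem second_diff {E : Set V} {p a v b : V} {δ s₀ : ℝ} (hδ : 0 < δ) (hs0 : 0 < s₀)
    (hs₀ : s₀ ≤ 1 / 2)
    (hloc : Convex ℝ (Metric.ball v δ ∩ E) ∨
      ∀ z ∈ Metric.ball v δ ∩ E, ∀ s : ℝ, 0 ≤ s → s ≤ s₀ → (1 - s) • z + s • p ∈ E)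
    (ha : ‖a - v‖ < δ) (hb : ‖b - v‖ < δ) (hav : segment ℝ a v ⊆ E) (hvb : segment ℝ v b ⊆ E)
    (hmin : ∀ w : V, segment ℝ a w ⊆ E → segment ℝ w b ⊆ E →
      ‖v - a‖ ^ 2 + ‖b - v‖ ^ 2 ≤ ‖w - a‖ ^ 2 + ‖b - w‖ ^ 2) :
    ‖b - v‖ ^ 2 + ‖v - a‖ ^ 2 ≤ ‖b - p‖ ^ 2 - 2 * ‖v - p‖ ^ 2 + ‖a - p‖ ^ 2 := by
  have hab : a ∈ Metric.ball v δ := by rw [Metric.mem_ball, dist_eq_norm]; exact ha
  have hbb : b ∈ Metric.ball v δ := by rw [Metric.mem_ball, dist_eq_norm]; exact hb
  have key : 0 ≤ inner ℝ (v - p) ((b - v) - (v - a)) := by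
    rcases hloc with hconv | hpush
    · have haE : a ∈ Metric.ball v δ ∩ E := ⟨hab, hav (left_mem_segment ℝ _ _)⟩
      have hbE : b ∈ Metric.ball v δ ∩ E := ⟨hbb, hvb (right_mem_segment ℝ _ _)⟩
      have hsub : segment ℝ a b ⊆ E := (hconv.segment_subset haE hbE).trans Set.inter_subset_right
      set m : V := midpoint ℝ a b with hm
      have hmem : m ∈ segment ℝ a b := midpoint_mem_segment a b
      have hcs := convex_segment (𝕜 := ℝ) a b
      have h := hmin m
        ((hcs.segment_subset (left_mem_segment ℝ _ _) hmem).trans hsub)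
        ((hcs.segment_subset hmem (right_mem_segment ℝ _ _)).trans hsub)
      have e1 : m - a = (1 / 2 : ℝ) • (b - a) := by
        rw [hm, midpoint_eq_smul_add, smul_sub, smul_add]
        have : a = (1 / 2 : ℝ) • a + (1 / 2 : ℝ) • a := by
          rw [← add_smul]; norm_num
        nth_rewrite 2 [this]
        simp only [one_div, invOf_eq_inv]
        abel
      have e2 : b - m = (1 / 2 : ℝ) • (b - a) := by
        have : b - m = (b - a) - (m - a) := by abel
        rw [this, e1]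
        have h3 : b - a = (1 / 2 : ℝ) • (b - a) + (1 / 2 : ℝ) • (b - a) := by
          rw [← add_smul]; norm_num
        nth_rewrite 1 [h3]
        abel
      rw [e1, e2] at h
      set g : V := b - a with hg
      have e3 : b - v = g - (v - a) := by rw [hg]; abel
      rw [e3] at h ⊢
      set f : V := v - a with hf
      have h4 : ‖f‖ ^ 2 + ‖g - f‖ ^ 2 = ‖(1 / 2 : ℝ) • g‖ ^ 2 + ‖(1 / 2 : ℝ) • g‖ ^ 2 +
          2 * ‖f - (1 / 2 : ℝ) • g‖ ^ 2 := by
        rw [@norm_sub_sq_real _ _ _ g f, @norm_sub_sq_real _ _ _ f, norm_smul, inner_smul_right,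
          real_inner_comm f g, mul_pow]
        norm_num
        ring
      have h5 : ‖f - (1 / 2 : ℝ) • g‖ ^ 2 ≤ 0 := by linarith
      have h6 : f - (1 / 2 : ℝ) • g = 0 := by
        have := le_antisymm h5 (sq_nonneg _)
        exact norm_eq_zero.mp (pow_eq_zero_iff (by norm_num) |>.mp this)
      have h7 : g - f - f = 0 := by
        have h8 : f = (1 / 2 : ℝ) • g := sub_eq_zero.mp h6
        have h9 : g = (1 / 2 : ℝ) • g + (1 / 2 : ℝ) • g := by
          rw [← add_smul]; norm_num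
        rw [h8]
        nth_rewrite 1 [h9]
        abel
      rw [h7, inner_zero_right]
    · refine nonneg_of_small _ (‖p - v‖ ^ 2) s₀ hs0 ?_
      · intro s hs1 hs2
        have hvb' : segment ℝ b v ⊆ E := by rw [segment_symm]; exact hvb
        have h := hmin ((1 - s) • v + s • p)
          (push_seg hs₀ hpush hδ hab hav s hs1.le hs2)
          (by rw [segment_symm]; exact push_seg hs₀ hpush hδ hbb hvb' s hs1.le hs2)
        have e1 : (1 - s) • v + s • p - a = (v - a) + s • (p - v) := by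
          rw [sub_smul, one_smul, smul_sub]; abel
        have e2 : b - ((1 - s) • v + s • p) = (b - v) - s • (p - v) := by
          rw [sub_smul, one_smul, smul_sub]; abel
        rw [e1, e2, norm_add_sq_real, @norm_sub_sq_real _ _ _ (b - v), inner_smul_right,
          inner_smul_right, norm_smul, Real.norm_eq_abs, abs_of_pos hs1] at h
        have e3 : inner ℝ (v - p) ((b - v) - (v - a)) = inner ℝ (v - a) (p - v) - inner ℝ (b - v) (p - v) := by
          rw [inner_sub_right, real_inner_comm (b - v) (v - p), real_inner_comm (v - a) (v - p)]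
          have : v - p = -(p - v) := by abel
          rw [this, inner_neg_right, inner_neg_right]
          ring
        rw [e3]
        nlinarith
  have e4 : b - p = (v - p) + (b - v) := by abel
  have e5 : a - p = (v - p) - (v - a) := by abel
  rw [e4, e5, norm_add_sq_real, @norm_sub_sq_real _ _ _ (v - p)]
  rw [inner_sub_right] at key
  linarith

theorem nearest_inner {E : Set V} {p x w : V} (hx : ∀ y ∈ E, ‖x - p‖ ≤ ‖y - p‖)
    (hw : segment ℝ x w ⊆ E) : 0 ≤ inner ℝ (x - p) (w - x) := by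
  have h := nonneg_of_small (2 * inner ℝ (x - p) (w - x)) (‖w - x‖ ^ 2) 1 one_pos (fun s hs0 hs1 => by
    rw [seg_iff] at hw
    have h1 := hx _ (hw s ⟨hs0.le, hs1⟩)
    have e : (1 - s) • x + s • w - p = (x - p) + s • (w - x) := by
      rw [sub_smul, one_smul, smul_sub]; abel
    rw [e] at h1
    have h2 := pow_le_pow_left₀ (norm_nonneg _) h1 2
    rw [norm_add_sq_real, inner_smul_right, norm_smul, Real.norm_eq_abs, abs_of_pos hs0] at h2
    nlinarith)
  linarith

/-- the main inequality -/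
theorem main_ineq {E : Set V} (hE : IsCompact E) {p : V} {δ s₀ : ℝ} (hδ : 0 < δ) (hs0 : 0 < s₀)
    (hs₀ : s₀ ≤ 1 / 2) (hloc : LocP E p δ s₀) {x y : V} (hne : (FS E x y).Nonempty)
    (hx : ∀ w ∈ E, ‖x - p‖ ≤ ‖w - p‖) : ‖x - p‖ ^ 2 + FF E x y ≤ ‖y - p‖ ^ 2 := by
  set F := FF E x y with hF
  have hF0 : 0 ≤ F := FF_nonneg hne
  set Δ := ‖y - p‖ ^ 2 - ‖x - p‖ ^ 2 with hΔ
  have step : ∀ τ : ℝ, 0 < τ → ∀ ε : ℝ, 0 < ε → τ * F ≤ τ * Δ + ε + τ ^ 2 * (F + ε) := by
    intro τ hτ ε hε
    obtain ⟨v, ⟨n, z0, hn, h00, h0n, h0c, rfl⟩, hv⟩ := exists_lt_of_csInf_lt hne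
      (show sInf (FS E x y) < F + ε by
        have : sInf (FS E x y) = F := rfl
        rw [this]; linarith)
    have he0 := En_nonneg n z0
    obtain ⟨k, hk⟩ := exists_nat_gt (En n z0 / δ ^ 2)
    have hkpos : (0 : ℝ) < k := lt_of_le_of_lt (by positivity) hk
    have hk1 : 1 ≤ k := by exact_mod_cast hkpos
    have hkδ : En n z0 / k < δ ^ 2 := by
      rw [div_lt_iff₀ (by positivity)] at hk
      rw [div_lt_iff₀ hkpos]
      linarith
    have hsub := Ch.sub (E := E) z0 (fun _ => k) (fun _ => hk1) n h0c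
    rw [h00, h0n, sum_const, card_range, smul_eq_mul] at hsub
    have hesub : ∑ i ∈ range n, ‖z0 (i + 1) - z0 i‖ ^ 2 / ((fun _ => k) i : ℕ) = En n z0 / k := by
      unfold En
      rw [sum_div]
    rw [hesub] at hsub
    set N := n * k with hN
    have hN1 : 1 ≤ N := Nat.mul_pos hn hk1
    obtain ⟨z1, h10, h1N, h1c, h1e⟩ := hsub
    obtain ⟨z, hz0, hzN, hzc, hzmin⟩ := exists_minCh hE N hN1 x y ⟨z1, h10, h1N, h1c⟩
    have hEn : En N z ≤ En n z0 / k := by
      rw [← h1e]
      exact hzmin z1 h10 h1N h1c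
    have hNE : N * En N z < F + ε := by
      refine lt_of_le_of_lt ?_ hv
      calc (N : ℝ) * En N z ≤ N * (En n z0 / k) := by gcongr
        _ = n * En n z0 := by rw [hN]; push_cast; field_simp
    have hsmall : ∀ i < N, ‖z (i + 1) - z i‖ < δ := by
      intro i hi
      have h1 : ‖z (i + 1) - z i‖ ^ 2 ≤ En N z :=
        single_le_sum (f := fun i => ‖z (i + 1) - z i‖ ^ 2) (fun _ _ => by positivity)
          (mem_range.mpr hi)
      have h2 : ‖z (i + 1) - z i‖ ^ 2 < δ ^ 2 := by linarith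
      exact lt_of_pow_lt_pow_left₀ 2 hδ.le h2
    have hmin' : ∀ z' : ℕ → V, z' 0 = z 0 → z' N = z N → IsCh E N z' → En N z ≤ En N z' :=
      fun z' a b c => hzmin z' (a.trans hz0) (b.trans hzN) c
    -- discrete convexity
    have hconv := conv_ineq (fun i => ‖z i - p‖ ^ 2) (fun i => ‖z (i + 1) - z i‖ ^ 2) N (by
        have h1 := nearest_inner (p := p) (w := z 1) hx (by
          have := hzc 0 (by omega)
          rw [hz0] at this
          exact this)
        have e : z 1 - p = (x - p) + (z 1 - x) := by abel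
        rw [hz0]
        simp only [zero_add]
        rw [e, norm_add_sq_real]
        linarith) (by
        intro i hi
        exact second_diff hδ hs0 hs₀ (hloc (z (i + 1)) (chain_mem hN1 hzc _ (by omega)))
          (by rw [norm_sub_rev]; exact hsmall i (by omega)) (hsmall (i + 1) hi)
          (hzc i (by omega)) (hzc (i + 1) hi)
          (fun w h1 h2 => min_vertex hzc hmin' i hi w h1 h2)) hN1
    rw [hz0, hzN] at hconv
    have hsum := sum_ineq (fun i => ‖z (i + 1) - z i‖) τ N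
    simp only at hsum
    have hFL := FF_le_Ln_sq N hN1 z hzc
    rw [hz0, hzN] at hFL
    have eL : ∑ i ∈ range N, ‖z (i + 1) - z i‖ = Ln N z := rfl
    have eE : ∑ i ∈ range N, ‖z (i + 1) - z i‖ ^ 2 = En N z := rfl
    rw [eL, eE] at hsum
    have q1 : τ * F ≤ τ * Ln N z ^ 2 := mul_le_mul_of_nonneg_left hFL hτ.le
    have q2 : N * En N z - Ln N z ^ 2 ≤ ε := by linarith
    have q3 : τ ^ 2 * (N * En N z) ≤ τ ^ 2 * (F + ε) :=
      mul_le_mul_of_nonneg_left hNE.le (by positivity)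
    have q4 := mul_le_mul_of_nonneg_left hconv hτ.le
    linarith
  have step2 : ∀ τ : ℝ, 0 < τ → F ≤ Δ + τ * F := by
    intro τ hτ
    have h1 : τ * F ≤ τ * Δ + τ ^ 2 * F := by
      refine le_of_forall_pos_le_add (fun η hη => ?_)
      have h2 := step τ hτ (η / (1 + τ ^ 2)) (by positivity)
      have h3 : η / (1 + τ ^ 2) + τ ^ 2 * (η / (1 + τ ^ 2)) = η := by field_simp
      linarith
    have h4 : τ * F ≤ τ * (Δ + τ * F) := by linarith
    exact le_of_mul_le_mul_left h4 hτ
  have step3 : F ≤ Δ := by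
    refine le_of_forall_pos_le_add (fun η hη => ?_)
    have h1 := step2 (η / (F + 1)) (by positivity)
    have h2 : η / (F + 1) * F ≤ η := by
      rw [div_mul_eq_mul_div, div_le_iff₀ (by positivity)]
      nlinarith
    linarith
  linarith

/-- straight segments from the energy -/
theorem seg_of_FF {E : Set V} (hE : IsClosed E) {x y : V} (hne : (FS E x y).Nonempty)
    (h : FF E x y ≤ ‖y - x‖ ^ 2) : segment ℝ x y ⊆ E := by
  -- rational points
  have hrat : ∀ (k j : ℕ), 1 ≤ k → j ≤ k →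
      (1 - (j : ℝ) / k) • x + ((j : ℝ) / k) • y ∈ E := by
    intro k j hk hj
    have hk0 : (0 : ℝ) < k := by exact_mod_cast hk
    set t : ℝ := (j : ℝ) / k with ht
    have ht0 : 0 ≤ t := by positivity
    have ht1 : t ≤ 1 := by
      rw [ht, div_le_one hk0]
      exact_mod_cast hj
    rw [← hE.closure_eq, Metric.mem_closure_iff]
    intro η hη
    obtain ⟨v, ⟨n, z0, hn, h00, h0n, h0c, rfl⟩, hv⟩ := exists_lt_of_csInf_lt hne
      (show sInf (FS E x y) < ‖y - x‖ ^ 2 + η ^ 2 by
        have h1 : sInf (FS E x y) ≤ ‖y - x‖ ^ 2 := h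
        have : 0 < η ^ 2 := by positivity
        linarith)
    have hsub := Ch.sub (E := E) z0 (fun _ => k) (fun _ => hk) n h0c
    rw [h00, h0n, sum_const, card_range, smul_eq_mul] at hsub
    have hesub : ∑ i ∈ range n, ‖z0 (i + 1) - z0 i‖ ^ 2 / ((fun _ => k) i : ℕ) = En n z0 / k := by
      unfold En
      rw [sum_div]
    rw [hesub] at hsub
    obtain ⟨z, hz0, hzN, hzc, hze⟩ := hsub
    have hN1 : 1 ≤ n * k := Nat.mul_pos hn hk
    have hle : n * j ≤ n * k := Nat.mul_le_mul_left _ hj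
    set c : V := z (n * j) with hc
    have hcE : c ∈ E := chain_mem hN1 hzc _ hle
    refine ⟨c, hcE, ?_⟩
    -- estimates
    have hA : ‖c - x‖ ^ 2 ≤ (n * j : ℕ) * En (n * j) z := by
      have h1 := dist_le_Ln (n * j) z
      rw [hz0] at h1
      exact (pow_le_pow_left₀ (norm_nonneg _) h1 2).trans (Ln_sq_le _ z)
    set z' : ℕ → V := fun i => z (n * j + i) with hz'
    have hB : ‖y - c‖ ^ 2 ≤ (n * k - n * j : ℕ) * En (n * k - n * j) z' := by
      have h1 := dist_le_Ln (n * k - n * j) z'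
      have e1 : z' (n * k - n * j) = y := by
        simp only [hz']
        rw [Nat.add_sub_cancel' hle, hzN]
      have e2 : z' 0 = c := rfl
      rw [e1, e2] at h1
      exact (pow_le_pow_left₀ (norm_nonneg _) h1 2).trans (Ln_sq_le _ z')
    have hAB : En (n * j) z + En (n * k - n * j) z' = En n z0 / k := by
      rw [← hze]
      unfold En
      have : n * k = n * j + (n * k - n * j) := (Nat.add_sub_cancel' hle).symm
      nth_rewrite 2 [this]
      rw [sum_range_add]
      congr 1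
    have hid : ‖c - ((1 - t) • x + t • y)‖ ^ 2 =
        (1 - t) * ‖c - x‖ ^ 2 + t * ‖y - c‖ ^ 2 - t * (1 - t) * ‖y - x‖ ^ 2 := by
      have e1 : c - ((1 - t) • x + t • y) = (c - x) - t • (y - x) := by
        rw [sub_smul, one_smul, smul_sub]; abel
      have e2 : y - c = (y - x) - (c - x) := by abel
      rw [e1, e2, @norm_sub_sq_real _ _ _ (c - x), @norm_sub_sq_real _ _ _ (y - x),
        inner_smul_right, norm_smul, Real.norm_eq_abs, abs_of_nonneg ht0,
        real_inner_comm (c - x) (y - x)]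
      ring
    have hj1 : ((n * j : ℕ) : ℝ) = t * (n * k) := by
      rw [ht]; push_cast; field_simp
    have hj2 : ((n * k - n * j : ℕ) : ℝ) = (1 - t) * (n * k) := by
      rw [Nat.cast_sub hle, ht]; push_cast; field_simp
    rw [hj1] at hA
    rw [hj2] at hB
    have hbound : ‖c - ((1 - t) • x + t • y)‖ ^ 2 < η ^ 2 := by
      rw [hid]
      have s1 := mul_le_mul_of_nonneg_left hA (by linarith : 0 ≤ 1 - t)
      have s2 := mul_le_mul_of_nonneg_left hB ht0
      have s3 : (1 - t) * (t * (n * k) * En (n * j) z) +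
          t * ((1 - t) * (n * k) * En (n * k - n * j) z') = t * (1 - t) * (n * En n z0) := by
        calc (1 - t) * (t * (n * k) * En (n * j) z) +
              t * ((1 - t) * (n * k) * En (n * k - n * j) z')
            = t * (1 - t) * (n * k) * (En (n * j) z + En (n * k - n * j) z') := by ring
          _ = _ := by rw [hAB]; field_simp
      have s4 : 0 ≤ t * (1 - t) := mul_nonneg ht0 (by linarith)
      have s5 : t * (1 - t) ≤ 1 / 4 := by nlinarith [sq_nonneg (t - 1 / 2)]
      have s6 := mul_le_mul_of_nonneg_left hv.le s4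
      have s7 : t * (1 - t) * η ^ 2 ≤ 1 / 4 * η ^ 2 :=
        mul_le_mul_of_nonneg_right s5 (by positivity)
      have s8 : 0 < η ^ 2 := by positivity
      nlinarith
    rw [dist_comm, dist_eq_norm]
    exact lt_of_pow_lt_pow_left₀ 2 hη.le hbound
  rw [seg_iff]
  intro t ht
  have hcont : Filter.Tendsto (fun k : ℕ => (1 - (⌊t * (k : ℝ)⌋₊ : ℝ) / (k : ℝ)) • x +
      ((⌊t * (k : ℝ)⌋₊ : ℝ) / (k : ℝ)) • y) Filter.atTop (𝓝 ((1 - t) • x + t • y)) := by
    have h1 : Filter.Tendsto (fun k : ℕ => (⌊t * (k : ℝ)⌋₊ : ℝ) / (k : ℝ)) Filter.atTop (𝓝 t) :=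
      (tendsto_nat_floor_mul_div_atTop ht.1).comp tendsto_natCast_atTop_atTop
    exact ((tendsto_const_nhds.sub h1).smul_const x).add (h1.smul_const y)
  refine hE.mem_of_tendsto hcont ?_
  filter_upwards [Filter.eventually_ge_atTop 1] with k hk
  refine hrat k _ hk ?_
  have hk0 : (0 : ℝ) ≤ k := Nat.cast_nonneg _
  have h1 : (⌊t * (k : ℝ)⌋₊ : ℝ) ≤ t * k := Nat.floor_le (mul_nonneg ht.1 hk0)
  have h2 : t * k ≤ k := by nlinarith [ht.2]
  exact_mod_cast h1.trans h2

end Pool.Agent.W270.CV
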